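import Pool.Agent.Y504.CO.Stm2

/-!
# Project CO: creation of a homoclinic orbit
-/

set_option autoImplicit false

open scoped Manifold ContDiff Topology
open Filter Set Metric

universe u

namespace Pool.Agent.Y284.CO

open Pool.Agent.H718R2.G Pool.Agent.TH80.OMS Pool.Agent.Y504.CO

section gen

variable {X : Type u} [TopologicalSpace X] [T2Space X] [CompactSpace X]

theorem orb_finite {f : X → X} {p : X} (hp : p ∈ Per f) : (orb f p).Finite := by
  obtain ⟨m, hm, hmp⟩ := hp
  refine (Set.finite_lt_nat m |>.image fun i => f^[i] p).subset ?_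
  rintro _ ⟨i, rfl⟩
  refine ⟨i % m, Nat.mod_lt _ hm, ?_⟩
  have h1 : ∀ q, f^[m * q] p = p := fun q => by
    rw [Function.iterate_mul]
    exact Function.iterate_fixed hmp q
  simp only
  conv_rhs => rw [← Nat.mod_add_div i m, Function.iterate_add_apply, h1]

theorem avoid {S : Set X} (hS : S.Finite) {z : X} (hz : z ∉ S) {a : ℕ → X}
    (ha : ∀ O : Set X, IsOpen O → S ⊆ O → ∀ᶠ i : ℕ in atTop, a i ∈ O) (hne : ∀ i, a i ≠ z) :
    ∃ Z : Set X, IsOpen Z ∧ z ∈ Z ∧ (∀ y ∈ S, y ∉ Z) ∧ ∀ i, a i ∉ Z := by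
  have hd : Disjoint S {z} := Set.disjoint_singleton_right.2 hz
  obtain ⟨G, Z, hG, hZ, hSG, hzZ, hGZ⟩ := normal_separation
    (hS.isClosed) (isClosed_singleton (x := z)) hd
  obtain ⟨m, hm⟩ := eventually_atTop.1 (ha G hG hSG)
  refine ⟨Z ∩ ⋂ i ∈ Set.Iio m, {a i}ᶜ, ?_, ?_, ?_, ?_⟩
  · exact hZ.inter ((Set.finite_Iio m).isOpen_biInter fun i _ => isOpen_compl_singleton)
  · refine ⟨hzZ rfl, ?_⟩
    simp only [mem_iInter, mem_compl_iff, mem_singleton_iff]
    exact fun i _ => (hne i).symm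
  · rintro y hy ⟨h1, _⟩
    exact Set.disjoint_left.1 hGZ (hSG hy) h1
  · rintro i ⟨h1, h2⟩
    by_cases hi : m ≤ i
    · exact Set.disjoint_left.1 hGZ (hm i hi) h1
    · simp only [mem_iInter, mem_compl_iff, mem_singleton_iff] at h2
      exact h2 i (not_le.1 hi) rfl

end gen

theorem main (hP : S_P2.{u}) : S_HB.{u} := by
  intro n N _ _ _ _ _ r hr f U hU hfU hOut
  obtain ⟨p, w, s, hp, hw, hs, ⟨x, hx, hx0, hxO⟩, hω, O, hO, O', hO', hseg⟩ := hOut
  have hinj : Function.Injective f := f.injective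
  have hfin := orb_finite hp
  -- iterates along the full orbit
  have hit : ∀ (j : ℕ) (i : ℤ), f^[j] (x i) = x (i + j) := by
    intro j
    induction j with
    | zero => intro i; simp
    | succ j ih =>
      intro i
      rw [Function.iterate_succ_apply', ih, hx]
      congr 1
      push_cast
      ring
  have hopc : ∀ y : N, IsOpen ({y}ᶜ : Set N) := fun y => isOpen_compl_singleton
  have F1 : ∀ i : ℕ, x (-(i + 1 : ℕ)) ≠ w := by
    intro i hi
    have h1 : ∀ m : ℕ, x (-((i + 1) * m : ℕ)) = w := by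
      intro m
      induction m with
      | zero => simpa using hx0
      | succ m ih =>
        have h2 : f^[(i + 1) * m] (x (-((i + 1) * (m + 1) : ℕ))) = x (-(i + 1 : ℕ)) := by
          rw [hit]
          congr 1
          push_cast
          ring
        have h3 : f^[(i + 1) * m] (x (-((i + 1) * m : ℕ))) = x 0 := by
          rw [hit]
          congr 1
          push_cast
          ring
        rw [hi, ← hx0, ← h3] at h2
        rw [(hinj.iterate _) h2]
        exact ih
    have h2 := hxO {w}ᶜ (hopc w) (fun y hy hyw => hw (by rwa [mem_singleton_iff.1 hyw] at hy))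
    obtain ⟨K, hK⟩ := eventually_atBot.1 h2
    have h3 := hK (-((i + 1) * K.natAbs : ℕ)) (by
      have h5 : (K.natAbs : ℤ) ≤ (((i + 1) * K.natAbs : ℕ) : ℤ) := by
        exact_mod_cast Nat.le_mul_of_pos_left _ (Nat.succ_pos i)
      omega)
    exact h3 (h1 _)
  have F2 : ∀ i : ℕ, f^[i + 1] s ≠ s := by
    intro i hi
    have h1 : ∀ m : ℕ, f^[(i + 1) * m] s = s := fun m => by
      rw [Function.iterate_mul]
      exact Function.iterate_fixed hi m
    have h2 := hω {s}ᶜ (hopc s) (fun y hy hyw => hs (by rwa [mem_singleton_iff.1 hyw] at hy))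
    obtain ⟨K, hK⟩ := eventually_atTop.1 h2
    have h3 := hK ((i + 1) * K) (Nat.le_mul_of_pos_left _ (Nat.succ_pos _))
    exact h3 (h1 _)
  by_cases hcase : ∃ i : ℕ, w = f^[i] s
  · -- CASE 1
    obtain ⟨i, hi⟩ := hcase
    refine ⟨f, hfU, p, s, hp, hs, ⟨fun j => x (j - i), fun j => ?_, ?_, fun G hG hGo => ?_⟩, hω⟩
    · simp only
      rw [hx]
      congr 1
      ring
    · simp only
      refine hinj.iterate i ?_
      rw [hit, ← hi, ← hx0]
      congr 1
      ring
    · obtain ⟨K, hK⟩ := eventually_atBot.1 (hxO G hG hGo)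
      refine eventually_atBot.2 ⟨K, fun j hj => hK _ ?_⟩
      have : (0 : ℤ) ≤ i := by positivity
      linarith
  · -- CASE 2
    push Not at hcase
    have F3 : ∀ i : ℕ, x (-(i : ℤ)) ≠ s := by
      intro i hi
      refine hcase i ?_
      rw [← hi, hit, ← hx0]
      congr 1
      ring
    have hws : w ≠ s := by simpa using hcase 0
    have hxa : ∀ G : Set N, IsOpen G → orb f p ⊆ G → ∀ᶠ i : ℕ in atTop, x (-(i + 1 : ℕ)) ∈ G := by
      intro G hG hGo
      obtain ⟨K, hK⟩ := eventually_atBot.1 (hxO G hG hGo)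
      refine eventually_atTop.2 ⟨K.natAbs, fun j hj => hK _ ?_⟩
      push_cast
      omega
    have hsa : ∀ G : Set N, IsOpen G → orb f p ⊆ G → ∀ᶠ i : ℕ in atTop, f^[i + 1] s ∈ G := by
      intro G hG hGo
      obtain ⟨K, hK⟩ := eventually_atTop.1 (hω G hG hGo)
      exact eventually_atTop.2 ⟨K, fun j hj => hK _ (by omega)⟩
    obtain ⟨Z1, hZ1, hwZ1, hoZ1, hxZ1⟩ := avoid hfin hw hxa F1
    obtain ⟨Z2, hZ2, hwZ2, hoZ2, hsZ2⟩ := avoid hfin hw hsa (fun i => (hcase (i + 1)).symm)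
    obtain ⟨Z3, hZ3, hwZ3, hoZ3, hxZ3⟩ := avoid hfin hs hxa (fun i => F3 (i + 1))
    obtain ⟨Z4, hZ4, hwZ4, hoZ4, hsZ4⟩ := avoid hfin hs hsa F2
    obtain ⟨D, D', hD, hD', hwD, hsD', hDD⟩ := t2_separation hws
    obtain ⟨O1, hO1⟩ : ∃ O1 : Set N, O1 = Z1 ∩ Z2 ∩ D ∩ interior O := ⟨_, rfl⟩
    obtain ⟨O2, hO2⟩ : ∃ O2 : Set N, O2 = Z3 ∩ Z4 ∩ D' ∩ interior O' := ⟨_, rfl⟩
    have hO1o : IsOpen O1 := by
      rw [hO1]; exact ((hZ1.inter hZ2).inter hD).inter isOpen_interior
    have hO2o : IsOpen O2 := by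
      rw [hO2]; exact ((hZ3.inter hZ4).inter hD').inter isOpen_interior
    have hwO1 : w ∈ O1 := by
      rw [hO1]; exact ⟨⟨⟨hwZ1, hwZ2⟩, hwD⟩, mem_interior_iff_mem_nhds.2 hO⟩
    have hsO2 : s ∈ O2 := by
      rw [hO2]; exact ⟨⟨⟨hwZ3, hwZ4⟩, hsD'⟩, mem_interior_iff_mem_nhds.2 hO'⟩
    have hdis : Disjoint O1 O2 := by
      refine hDD.mono ?_ ?_
      · rw [hO1]; exact fun y hy => hy.1.2
      · rw [hO2]; exact fun y hy => hy.1.2
    have hO1O : O1 ⊆ O := by rw [hO1]; exact fun y hy => interior_subset hy.2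
    have hO2O : O2 ⊆ O' := by rw [hO2]; exact fun y hy => interior_subset hy.2
    have ho1 : ∀ y ∈ orb f p, y ∉ O1 ∧ y ∉ O2 := fun y hy =>
      ⟨fun h => hoZ1 y hy (by rw [hO1] at h; exact h.1.1.1),
        fun h => hoZ3 y hy (by rw [hO2] at h; exact h.1.1.1)⟩
    have hx1 : ∀ i : ℕ, x (-(i + 1 : ℕ)) ∉ O1 ∧ x (-(i + 1 : ℕ)) ∉ O2 := fun i =>
      ⟨fun h => hxZ1 i (by rw [hO1] at h; exact h.1.1.1),
        fun h => hxZ3 i (by rw [hO2] at h; exact h.1.1.1)⟩
    have hs1 : ∀ i : ℕ, f^[i + 1] s ∉ O1 ∧ f^[i + 1] s ∉ O2 := fun i =>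
      ⟨fun h => hsZ2 i (by rw [hO1] at h; exact h.1.1.2),
        fun h => hsZ4 i (by rw [hO2] at h; exact h.1.1.2)⟩
    obtain ⟨W, hW, W', hW', hPP⟩ := hP n N r hr f U hU hfU w s O1 O2 hO1o hO2o hwO1 hsO2 hdis
    obtain ⟨w', hw', k, hk, hmid⟩ := hseg (W ∩ O1) (inter_mem hW (hO1o.mem_nhds hwO1)) (W' ∩ O2)
      (inter_mem hW' (hO2o.mem_nhds hsO2))
    obtain ⟨Φ, g, hgU, hgf, hΦw, hΦs, hΦid⟩ := hPP w' hw'.1 (f^[k] w') hk.1
    have hk0 : k ≠ 0 := by
      rintro rfl
      exact Set.disjoint_left.1 hdis hw'.2 hk.2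
    have hgid : ∀ y, y ∉ O1 → y ∉ O2 → g y = f y := fun y h1 h2 => by rw [hgf, hΦid y h1 h2]
    have hgp : ∀ i : ℕ, g^[i] p = f^[i] p := by
      intro i
      induction i with
      | zero => rfl
      | succ i ih =>
        rw [Function.iterate_succ_apply', ih, Function.iterate_succ_apply']
        have h1 := ho1 (f^[i] p) ⟨i, rfl⟩
        exact hgid _ h1.1 h1.2
    have horb : orb g p = orb f p := by
      unfold orb
      congr 1
      funext i
      exact hgp i
    have hgw : ∀ i : ℕ, i + 1 ≤ k → g^[i + 1] w = f^[i + 1] w' := by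
      intro i
      induction i with
      | zero =>
        intro _
        rw [zero_add, Function.iterate_one, Function.iterate_one, hgf, hΦw]
      | succ i ih =>
        intro hi
        rw [Function.iterate_succ_apply', ih (by omega), Function.iterate_succ_apply' f (i + 1)]
        have h1 := hmid (i + 1) (by omega) (by omega)
        exact hgid _ (fun h => h1.1 (hO1O h)) (fun h => h1.2 (hO2O h))
    have hgk : g^[k] w = f^[k] w' := by
      obtain ⟨j, rfl⟩ := Nat.exists_eq_succ_of_ne_zero hk0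
      exact hgw j le_rfl
    have hgs : ∀ j : ℕ, g^[k + 1 + j] w = f^[j + 1] s := by
      intro j
      induction j with
      | zero =>
        rw [add_zero, Function.iterate_succ_apply', hgk, hgf, hΦs]
        rfl
      | succ j ih =>
        have e : k + 1 + (j + 1) = (k + 1 + j) + 1 := by ring
        rw [e, Function.iterate_succ_apply', ih, Function.iterate_succ_apply' f (j + 1)]
        exact hgid _ (hs1 j).1 (hs1 j).2
    refine ⟨g, hgU, p, w, ?_, by rwa [horb], ?_, ?_⟩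
    · obtain ⟨m, hm, hmp⟩ := hp
      exact ⟨m, hm, by rw [hgp]; exact hmp⟩
    · refine ⟨fun i => if i ≤ 0 then x i else g^[i.toNat] w, fun i => ?_, ?_, fun G hG hGo => ?_⟩
      · simp only
        rcases lt_trichotomy i 0 with hi | hi | hi
        · rw [if_pos hi.le, if_pos (by omega), ← hx]
          obtain ⟨j, hj⟩ : ∃ j : ℕ, i = -(j + 1 : ℕ) := ⟨(-i - 1).toNat, by push_cast; omega⟩
          rw [hj]
          exact hgid _ (hx1 j).1 (hx1 j).2
        · subst hi
          rw [if_pos le_rfl, if_neg (by omega), hx0]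
          rfl
        · rw [if_neg (by omega), if_neg (by omega)]
          have e : (i + 1).toNat = i.toNat + 1 := by omega
          rw [e, Function.iterate_succ_apply']
      · simp only
        rw [if_pos le_rfl, hx0]
      · rw [horb] at hGo
        filter_upwards [hxO G hG hGo, eventually_le_atBot (0 : ℤ)] with i hi hi0
        rw [if_pos hi0]
        exact hi
    · intro G hG hGo
      rw [horb] at hGo
      obtain ⟨K, hK⟩ := eventually_atTop.1 (hsa G hG hGo)
      refine eventually_atTop.2 ⟨k + 1 + K, fun j hj => ?_⟩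
      obtain ⟨l, rfl⟩ := Nat.exists_eq_add_of_le hj
      have e : k + 1 + K + l = k + 1 + (K + l) := by ring
      rw [e, hgs]
      exact hK _ (by omega)

end Pool.Agent.Y284.CO
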